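import Mathlib.Analysis.InnerProductSpace.PiL2
import Mathlib.Order.CompletePartialOrder

/-!
Crease patterns, rigid origami and configuration spaces (problem MP_aa2243_gt).
-/

set_option autoImplicit false

open Set Real

namespace Pool.Agent.MP_aa2243_gt

/-- The Euclidean plane. -/
abbrev P2 : Type := EuclideanSpace ℝ (Fin 2)

/-- Euclidean three-space. -/
abbrev P3 : Type := EuclideanSpace ℝ (Fin 3)

/-- Data of a crease pattern with `m` creases: the sheet, the vertices and the two ends of every
crease. -/
structure CreasePattern (m : ℕ) where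
  region : Set P2
  vertices : Finset P2
  src : Fin m → P2
  tgt : Fin m → P2

variable {m : ℕ}

/-- The data form a plane straight-line graph drawn on a compact region: the sheet is compact and
is the closure of its connected interior, the vertices lie on the sheet, every crease joins two
distinct vertices through the interior of the sheet and meets no other vertex, and two creases
share no inner point. -/
def CreasePattern.IsPlane (G : CreasePattern m) : Prop :=
  IsCompact G.region ∧ IsConnected (interior G.region) ∧
    closure (interior G.region) = G.region ∧ (∀ v ∈ G.vertices, v ∈ G.region) ∧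
    (∀ e, G.src e ∈ G.vertices ∧ G.tgt e ∈ G.vertices ∧ G.src e ≠ G.tgt e ∧
      openSegment ℝ (G.src e) (G.tgt e) ⊆ interior G.region ∧
      ∀ v ∈ G.vertices, v ∉ openSegment ℝ (G.src e) (G.tgt e)) ∧
    ∀ e f, e ≠ f → Disjoint (openSegment ℝ (G.src e) (G.tgt e)) (openSegment ℝ (G.src f) (G.tgt f))

/-- Exactly two vertices lie in the interior of the sheet, the others on its boundary. -/
def CreasePattern.IsTwoVertex (G : CreasePattern m) : Prop :=
  ∃ u ∈ G.vertices, ∃ v ∈ G.vertices, u ≠ v ∧ u ∈ interior G.region ∧ v ∈ interior G.region ∧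
    ∀ w ∈ G.vertices, w = u ∨ w = v ∨ w ∈ frontier G.region

/-- The union of the creases. -/
def CreasePattern.creases (G : CreasePattern m) : Set P2 := ⋃ e, segment ℝ (G.src e) (G.tgt e)

/-- The face through a point `x` of the sheet off the creases: the closure of the component of
`x` in the sheet minus the creases. -/
def CreasePattern.face (G : CreasePattern m) (x : P2) : Set P2 :=
  closure (connectedComponentIn (G.region \ G.creases) x)

/-- Rotation of the plane by a quarter turn. -/
def rot (d : P2) : P2 := !₂[-d 1, d 0]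

/-- The determinant (triple product) of three vectors. -/
def det3 (x y z : P3) : ℝ := Matrix.det !![x 0, x 1, x 2; y 0, y 1, y 2; z 0, z 1, z 2]

/-- `σ` has folding angle `ρ` at the crease from `p` to `q`.  With `d = q - p` and `rot d` its
left normal, `a` and `b` are the images of `rot d` under the faces on the left and on the right of
the crease; `ρ` is the signed angle from `b` to `a` about the image of `d` (zero when flat,
positive for a valley). -/
def FoldsBy (σ : P2 → P3) (p q : P2) (ρ : ℝ) : Prop :=
  ∃ a b : P3,
    (∃ δ : ℝ, 0 < δ ∧ ∀ t ∈ Icc (0 : ℝ) δ,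
      σ (midpoint ℝ p q + t • rot (q - p)) = σ (midpoint ℝ p q) + t • a ∧
      σ (midpoint ℝ p q - t • rot (q - p)) = σ (midpoint ℝ p q) - t • b) ∧
    inner ℝ a b = ‖q - p‖ ^ 2 * cos ρ ∧ det3 (σ q - σ p) b a = ‖q - p‖ ^ 3 * sin ρ

/-- `σ` is continuous on the sheet, isometric on every face, and has folding angle `ρ e` at every
crease `e`. -/
def CreasePattern.IsFolding (G : CreasePattern m) (ρ : Fin m → ℝ) (σ : P2 → P3) : Prop :=
  ContinuousOn σ G.region ∧
    (∀ x ∈ G.region \ G.creases, ∀ y ∈ G.face x, ∀ z ∈ G.face x, dist (σ y) (σ z) = dist y z) ∧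
    ∀ e, FoldsBy σ (G.src e) (G.tgt e) (ρ e)

/-- The configuration space: angle vectors in `[-π, π]^m` realised by a folding that is a uniform
limit on the sheet of injective continuous maps. -/
def CreasePattern.configSpace (G : CreasePattern m) : Set (Fin m → ℝ) :=
  {ρ | (∀ e, ρ e ∈ Icc (-π) π) ∧ ∃ σ : P2 → P3, G.IsFolding ρ σ ∧
    ∀ ε : ℝ, 0 < ε → ∃ τ : P2 → P3, ContinuousOn τ G.region ∧ InjOn τ G.region ∧
      ∀ x ∈ G.region, dist (τ x) (σ x) < ε}

/-- The embedded states: angle vectors in `(-π, π)^m` realised by a folding that is itself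
injective on the sheet. -/
def CreasePattern.embeddedStates (G : CreasePattern m) : Set (Fin m → ℝ) :=
  {ρ | (∀ e, ρ e ∈ Ioo (-π) π) ∧ ∃ σ : P2 → P3, G.IsFolding ρ σ ∧ InjOn σ G.region}

/-- There is a non-constant continuous path in `C` starting at the unfolded state. -/
def FoldableIn (C : Set (Fin m → ℝ)) : Prop :=
  ∃ γ : unitInterval → (Fin m → ℝ), Continuous γ ∧ γ 0 = 0 ∧ (∃ t, γ t ≠ 0) ∧ ∀ t, γ t ∈ C

end Pool.Agent.MP_aa2243_gt
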