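import Mathlib.RingTheory.Flat.TorsionFree
import Mathlib.Algebra.Order.Archimedean.Real.Hom
import Mathlib.Analysis.Real.Pi.Bounds
import Mathlib.RingTheory.SimpleRing.Principal
import Pool.Agent.MP_aa2243_gt.Defs
import Pool.Agent.Lib.helper79.Brouwer

-- ======== part 0: formerly Pool.Agent.MP_aa2243_gt.Basic
section MrgPart0

/-!
General lemmas: coordinates, isometric maps on plane sets, folding angles of affine pieces.
-/

set_option autoImplicit false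

open Set Real Filter Topology

namespace Pool.Agent.MP_aa2243_gt

/-- point of the plane -/
def p2 (x y : ℝ) : P2 := !₂[x, y]

/-- point of space -/
def p3 (x y z : ℝ) : P3 := !₂[x, y, z]

@[simp] lemma p2_0 (x y : ℝ) : p2 x y 0 = x := rfl
@[simp] lemma p2_1 (x y : ℝ) : p2 x y 1 = y := rfl
@[simp] lemma p3_0 (x y z : ℝ) : p3 x y z 0 = x := rfl
@[simp] lemma p3_1 (x y z : ℝ) : p3 x y z 1 = y := rfl
@[simp] lemma p3_2 (x y z : ℝ) : p3 x y z 2 = z := rfl
@[simp] lemma rot_0 (d : P2) : rot d 0 = -d 1 := rfl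
@[simp] lemma rot_1 (d : P2) : rot d 1 = d 0 := rfl

lemma P2_ext {a b : P2} (h0 : a 0 = b 0) (h1 : a 1 = b 1) : a = b := by
  ext i; fin_cases i <;> assumption

lemma P3_ext {a b : P3} (h0 : a 0 = b 0) (h1 : a 1 = b 1) (h2 : a 2 = b 2) : a = b := by
  ext i; fin_cases i <;> assumption

lemma p2_inj {a b c d : ℝ} : p2 a b = p2 c d ↔ a = c ∧ b = d :=
  ⟨fun h => ⟨congrArg (· 0) h, congrArg (· 1) h⟩, fun h => by rw [h.1, h.2]⟩

lemma inner3 (a b : P3) : inner ℝ a b = a 0 * b 0 + a 1 * b 1 + a 2 * b 2 := by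
  simp [PiLp.inner_apply, Fin.sum_univ_three]; ring

lemma normsq2 (a : P2) : ‖a‖ ^ 2 = a 0 ^ 2 + a 1 ^ 2 := by
  simp [EuclideanSpace.norm_sq_eq, Fin.sum_univ_two]

lemma normsq3 (a : P3) : ‖a‖ ^ 2 = inner ℝ a a := (real_inner_self_eq_norm_sq a).symm

lemma det3_eq (x y z : P3) : det3 x y z = x 0 * y 1 * z 2 - x 0 * y 2 * z 1 - x 1 * y 0 * z 2
    + x 1 * y 2 * z 0 + x 2 * y 0 * z 1 - x 2 * y 1 * z 0 := by
  simp [det3, Matrix.det_fin_three]

@[simp] lemma mid_0 (p q : P2) : (midpoint ℝ p q) 0 = (p 0 + q 0) / 2 := by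
  simp [midpoint_eq_smul_add]; ring

@[simp] lemma mid_1 (p q : P2) : (midpoint ℝ p q) 1 = (p 1 + q 1) / 2 := by
  simp [midpoint_eq_smul_add]; ring

lemma coord_cont (i : Fin 2) : Continuous fun p : P2 => p i :=
  (EuclideanSpace.proj (𝕜 := ℝ) i).continuous

lemma mem_seg {a b p : P2} : p ∈ segment ℝ a b ↔
    ∃ t : ℝ, 0 ≤ t ∧ t ≤ 1 ∧ p 0 = a 0 + t * (b 0 - a 0) ∧ p 1 = a 1 + t * (b 1 - a 1) := by
  rw [segment_eq_image']
  constructor
  · rintro ⟨t, ⟨h0, h1⟩, rfl⟩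
    exact ⟨t, h0, h1, by simp, by simp⟩
  · rintro ⟨t, h0, h1, h2, h3⟩
    exact ⟨t, ⟨h0, h1⟩, P2_ext (by simp [h2]) (by simp [h3])⟩

lemma mem_oseg {a b p : P2} : p ∈ openSegment ℝ a b ↔
    ∃ t : ℝ, 0 < t ∧ t < 1 ∧ p 0 = a 0 + t * (b 0 - a 0) ∧ p 1 = a 1 + t * (b 1 - a 1) := by
  rw [openSegment_eq_image']
  constructor
  · rintro ⟨t, ⟨h0, h1⟩, rfl⟩
    exact ⟨t, h0, h1, by simp, by simp⟩
  · rintro ⟨t, h0, h1, h2, h3⟩
    exact ⟨t, ⟨h0, h1⟩, P2_ext (by simp [h2]) (by simp [h3])⟩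

/-- `σ` is the affine map with data `o, P, Q` on `F` -/
def AffOn (σ : P2 → P3) (F : Set P2) (o P Q : P3) : Prop :=
  ∀ p ∈ F, σ p = o + p 0 • P + p 1 • Q

/-- orthonormal pair -/
def ON (P Q : P3) : Prop := inner ℝ P P = 1 ∧ inner ℝ Q Q = 1 ∧ inner ℝ P Q = 0

lemma AffOn.dist_eq {σ : P2 → P3} {F : Set P2} {o P Q : P3} (h : AffOn σ F o P Q) (hon : ON P Q)
    {y z : P2} (hy : y ∈ F) (hz : z ∈ F) : dist (σ y) (σ z) = dist y z := by
  rw [dist_eq_norm, dist_eq_norm, ← sq_eq_sq₀ (norm_nonneg _) (norm_nonneg _), normsq3, normsq2,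
    h y hy, h z hz]
  obtain ⟨h1, h2, h3⟩ := hon
  simp only [inner3] at h1 h2 h3 ⊢
  simp
  linear_combination (y 0 - z 0) ^ 2 * h1 + (y 1 - z 1) ^ 2 * h2 +
    2 * (y 0 - z 0) * (y 1 - z 1) * h3

lemma inner_of_iso {σ : P2 → P3} {F : Set P2}
    (h : ∀ y ∈ F, ∀ z ∈ F, dist (σ y) (σ z) = dist y z) {p y z : P2} (hp : p ∈ F) (hy : y ∈ F)
    (hz : z ∈ F) : inner ℝ (σ y - σ p) (σ z - σ p) =
      (y 0 - p 0) * (z 0 - p 0) + (y 1 - p 1) * (z 1 - p 1) := by
  have key : ∀ a ∈ F, ∀ b ∈ F, inner ℝ (σ a - σ b) (σ a - σ b) =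
      (a 0 - b 0) ^ 2 + (a 1 - b 1) ^ 2 := by
    intro a ha b hb
    have := h a ha b hb
    rw [dist_eq_norm, dist_eq_norm] at this
    rw [← normsq3, this, normsq2]
    simp
  have h1 := key y hy p hp
  have h2 := key z hz p hp
  have h3 := key y hy z hz
  simp only [inner3] at h1 h2 h3 ⊢
  simp at h1 h2 h3 ⊢
  linear_combination (1 / 2) * h1 + (1 / 2) * h2 - (1 / 2) * h3

lemma affOn_of_iso {σ : P2 → P3} {F : Set P2}
    (h : ∀ y ∈ F, ∀ z ∈ F, dist (σ y) (σ z) = dist y z) {x y a b : ℝ} (ha : a ^ 2 = 1)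
    (hb : b ^ 2 = 1) (h0 : p2 x y ∈ F) (h1 : p2 (x + a) y ∈ F) (h2 : p2 x (y + b) ∈ F) :
    ∃ o P Q : P3, ON P Q ∧ AffOn σ F o P Q := by
  set P := a • (σ (p2 (x + a) y) - σ (p2 x y)) with hP
  set Q := b • (σ (p2 x (y + b)) - σ (p2 x y)) with hQ
  have e11 := inner_of_iso h h0 h1 h1
  have e22 := inner_of_iso h h0 h2 h2
  have e12 := inner_of_iso h h0 h1 h2
  have hPP : inner ℝ P P = 1 := by
    rw [hP, inner_smul_left, inner_smul_right, e11]; simp; nlinarith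
  have hQQ : inner ℝ Q Q = 1 := by
    rw [hQ, inner_smul_left, inner_smul_right, e22]; simp; nlinarith
  have hPQ : inner ℝ P Q = 0 := by
    rw [hP, hQ, inner_smul_left, inner_smul_right, e12]; simp
  refine ⟨σ (p2 x y) - x • P - y • Q, P, Q, ⟨hPP, hQQ, hPQ⟩, fun p hp => ?_⟩
  have f0 := inner_of_iso h h0 hp hp
  have f1 : inner ℝ (σ p - σ (p2 x y)) P = p 0 - x := by
    rw [hP, inner_smul_right, inner_of_iso h h0 hp h1]; simp; linear_combination (p 0 - x) * ha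
  have f2 : inner ℝ (σ p - σ (p2 x y)) Q = p 1 - y := by
    rw [hQ, inner_smul_right, inner_of_iso h h0 hp h2]; simp; linear_combination (p 1 - y) * hb
  set w := σ p - σ (p2 x y) with hw
  have : inner ℝ (w - (p 0 - x) • P - (p 1 - y) • Q) (w - (p 0 - x) • P - (p 1 - y) • Q) = 0 := by
    simp only [inner3] at f0 f1 f2 hPP hQQ hPQ ⊢
    simp at f0 ⊢
    linear_combination f0 - 2 * (p 0 - x) * f1 - 2 * (p 1 - y) * f2 + (p 0 - x) ^ 2 * hPP +
      (p 1 - y) ^ 2 * hQQ + 2 * (p 0 - x) * (p 1 - y) * hPQ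
  rw [inner_self_eq_zero] at this
  have h3 : σ p = σ (p2 x y) + (w - (p 0 - x) • P - (p 1 - y) • Q) + (p 0 - x) • P +
      (p 1 - y) • Q := by rw [hw]; abel
  rw [h3, this, sub_smul, sub_smul]
  abel

lemma foldsBy_iff {σ : P2 → P3} {FL FR : Set P2} {oL PL QL oR PR QR : P3}
    (hL : AffOn σ FL oL PL QL) (hR : AffOn σ FR oR PR QR) {p q : P2} (hp : p ∈ FL) (hq : q ∈ FL)
    {δ : ℝ} (hδ : 0 < δ) (hl : ∀ t ∈ Icc (0 : ℝ) δ, midpoint ℝ p q + t • rot (q - p) ∈ FL)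
    (hr : ∀ t ∈ Icc (0 : ℝ) δ, midpoint ℝ p q - t • rot (q - p) ∈ FR) (ρ : ℝ) :
    FoldsBy σ p q ρ ↔
      inner ℝ ((p 1 - q 1) • PL + (q 0 - p 0) • QL) ((p 1 - q 1) • PR + (q 0 - p 0) • QR) =
        ‖q - p‖ ^ 2 * cos ρ ∧
      det3 ((q 0 - p 0) • PL + (q 1 - p 1) • QL) ((p 1 - q 1) • PR + (q 0 - p 0) • QR)
        ((p 1 - q 1) • PL + (q 0 - p 0) • QL) = ‖q - p‖ ^ 3 * sin ρ := by
  have hmL : midpoint ℝ p q ∈ FL := by simpa using hl 0 ⟨le_rfl, hδ.le⟩
  have hmR : midpoint ℝ p q ∈ FR := by simpa using hr 0 ⟨le_rfl, hδ.le⟩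
  have hD : σ q - σ p = (q 0 - p 0) • PL + (q 1 - p 1) • QL := by
    rw [hL q hq, hL p hp, sub_smul, sub_smul]; abel
  have ha : ∀ t ∈ Icc (0 : ℝ) δ, σ (midpoint ℝ p q + t • rot (q - p)) =
      σ (midpoint ℝ p q) + t • ((p 1 - q 1) • PL + (q 0 - p 0) • QL) := by
    intro t ht
    rw [hL _ (hl t ht), hL _ hmL]
    ext i
    simp
    ring
  have hb : ∀ t ∈ Icc (0 : ℝ) δ, σ (midpoint ℝ p q - t • rot (q - p)) =
      σ (midpoint ℝ p q) - t • ((p 1 - q 1) • PR + (q 0 - p 0) • QR) := by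
    intro t ht
    rw [hR _ (hr t ht), hR _ hmR]
    ext i
    simp
    ring
  constructor
  · rintro ⟨a, b, ⟨δ', hδ', h⟩, h1, h2⟩
    have ht0 : 0 < min δ δ' := lt_min hδ hδ'
    have e1 := (h (min δ δ') ⟨ht0.le, min_le_right _ _⟩).1
    have e2 := (h (min δ δ') ⟨ht0.le, min_le_right _ _⟩).2
    rw [ha _ ⟨ht0.le, min_le_left _ _⟩, add_right_inj] at e1
    rw [hb _ ⟨ht0.le, min_le_left _ _⟩, sub_right_inj] at e2
    have e1' := smul_right_injective P3 ht0.ne' e1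
    have e2' := smul_right_injective P3 ht0.ne' e2
    rw [e1', e2', ← hD]
    exact ⟨h1, h2⟩
  · rintro ⟨h1, h2⟩
    exact ⟨_, _, ⟨δ, hδ, fun t ht => ⟨ha t ht, hb t ht⟩⟩, h1, by rw [hD]; exact h2⟩

lemma exists_angle {x y l : ℝ} (hl : 0 < l) (h : x ^ 2 * l ^ 2 + y ^ 2 = (l ^ 2) ^ 3)
    (hx : -l ^ 2 < x) : ∃ ρ ∈ Ioo (-π) π, x = l ^ 2 * cos ρ ∧ y = l ^ 3 * sin ρ := by
  set z : ℂ := ⟨x / l ^ 2, y / l ^ 3⟩ with hz
  have hn : ‖z‖ = 1 := by
    rw [← sq_eq_sq₀ (norm_nonneg _) zero_le_one, Complex.sq_norm, Complex.normSq_apply]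
    simp only [hz]
    field_simp
    linarith
  have hz0 : z ≠ 0 := by
    intro h0; rw [h0] at hn; simp at hn
  have hc := Complex.cos_arg hz0
  have hs := Complex.sin_arg z
  rw [hn, div_one] at hc hs
  refine ⟨Complex.arg z, ⟨Complex.neg_pi_lt_arg z, lt_of_le_of_ne (Complex.arg_le_pi z) ?_⟩, ?_, ?_⟩
  · intro h1
    rw [h1, cos_pi] at hc
    simp only [hz] at hc
    field_simp at hc
    linarith
  · rw [hc]; simp only [hz]; field_simp
  · rw [hs]; simp only [hz]; field_simp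

/-- Parseval identity for an orthonormal triple -/
lemma parseval {a b c : P3} (haa : inner ℝ a a = 1) (hbb : inner ℝ b b = 1)
    (hcc : inner ℝ c c = 1) (hab : inner ℝ a b = 0) (hac : inner ℝ a c = 0)
    (hbc : inner ℝ b c = 0) (w : P3) :
    inner ℝ w w = inner ℝ w a ^ 2 + inner ℝ w b ^ 2 + inner ℝ w c ^ 2 := by
  simp only [inner3] at *
  set G : Matrix (Fin 3) (Fin 3) ℝ := !![a 0, a 1, a 2; b 0, b 1, b 2; c 0, c 1, c 2] with hG
  have h1 : G * G.transpose = 1 := by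
    ext i j
    fin_cases i <;> fin_cases j <;> simp [hG, Matrix.mul_apply, Fin.sum_univ_three] <;> linarith
  have h2 : G.transpose * G = 1 := mul_eq_one_comm.1 h1
  have e := fun i j => congrFun (congrFun h2 i) j
  have e00 := e 0 0
  have e11 := e 1 1
  have e22 := e 2 2
  have e01 := e 0 1
  have e02 := e 0 2
  have e12 := e 1 2
  simp [hG, Matrix.mul_apply, Fin.sum_univ_three] at e00 e11 e22 e01 e02 e12
  linear_combination (-(w 0) ^ 2) * e00 - (w 1) ^ 2 * e11 - (w 2) ^ 2 * e22 -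
    2 * w 0 * w 1 * e01 - 2 * w 0 * w 2 * e02 - 2 * w 1 * w 2 * e12

lemma mem_face_of_seg {m : ℕ} (G : CreasePattern m) {x p : P2}
    (h : ∀ t : ℝ, 0 < t → t ≤ 1 → p + t • (x - p) ∈ G.region \ G.creases) : p ∈ G.face x := by
  have hc : Continuous fun t : ℝ => p + t • (x - p) := by fun_prop
  have h1 : (fun t : ℝ => p + t • (x - p)) '' Ioc 0 1 ⊆
      connectedComponentIn (G.region \ G.creases) x := by
    refine (isPreconnected_Ioc.image _ hc.continuousOn).subset_connectedComponentIn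
      ⟨1, by simp, by simp⟩ ?_
    rintro _ ⟨t, ht, rfl⟩
    exact h t ht.1 ht.2
  have h2 : Tendsto (fun t : ℝ => p + t • (x - p)) (𝓝[>] 0) (𝓝 p) := by
    have := (hc.tendsto 0).mono_left (nhdsWithin_le_nhds (s := Ioi 0))
    simpa using this
  refine mem_closure_of_tendsto h2 ?_
  filter_upwards [Ioc_mem_nhdsGT zero_lt_one] with t ht
  exact h1 ⟨t, ht, rfl⟩

lemma sign_on_face {m : ℕ} (G : CreasePattern m) {f : P2 → ℝ} (hf : Continuous f)
    (h0 : ∀ p ∈ G.region \ G.creases, f p ≠ 0) {x : P2} (hx : x ∈ G.region \ G.creases) {y : P2}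
    (hy : y ∈ G.face x) : 0 ≤ f x * f y := by
  have hcl : IsClosed {y | 0 ≤ f x * f y} := isClosed_le continuous_const (by fun_prop)
  refine closure_minimal (fun z hz => ?_) hcl hy
  by_contra hneg
  simp only [mem_ofPred_eq, not_le] at hneg
  have hpre := isPreconnected_connectedComponentIn (F := G.region \ G.creases) (x := x)
  have hxx : 0 ≤ f x * f x := mul_self_nonneg _
  obtain ⟨w, hw, hw0⟩ := hpre.intermediate_value hz (mem_connectedComponentIn hx)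
    (f := fun y => f x * f y) (by fun_prop) ⟨hneg.le, hxx⟩
  rcases mul_eq_zero.1 hw0 with h | h
  · exact h0 x hx h
  · exact h0 w (connectedComponentIn_subset _ _ hw) h

lemma face_subset {m : ℕ} (G : CreasePattern m) (hR : IsClosed G.region) (x : P2) :
    G.face x ⊆ G.region :=
  closure_minimal ((connectedComponentIn_subset _ _).trans sdiff_subset) hR

end Pool.Agent.MP_aa2243_gt

end MrgPart0

-- ======== part 1: formerly Pool.Agent.MP_aa2243_gt.Pattern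
section MrgPart1

/-!
The crease pattern: the rectangle `[-4,4] × [-1,1]` with interior vertices `(-1,0)` and `(1,0)`.
-/

set_option autoImplicit false

open Set Real Filter Topology

namespace Pool.Agent.MP_aa2243_gt

/-- the sheet -/
def R0 : Set P2 := {p | -4 ≤ p 0 ∧ p 0 ≤ 4 ∧ -1 ≤ p 1 ∧ p 1 ≤ 1}

/-- the open sheet -/
def O0 : Set P2 := {p | -4 < p 0 ∧ p 0 < 4 ∧ -1 < p 1 ∧ p 1 < 1}

open Classical in
/-- the crease pattern -/
noncomputable def G0 : CreasePattern 7 where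
  region := R0
  vertices := {p2 (-1) 0, p2 1 0, p2 (-4 / 3) 1, p2 (-4) 0, p2 (-3 / 2) (-1), p2 (3 / 2) 1,
    p2 4 0, p2 (4 / 3) (-1)}
  src := ![p2 (-1) 0, p2 (-1) 0, p2 (-1) 0, p2 (-1) 0, p2 1 0, p2 1 0, p2 1 0]
  tgt := ![p2 1 0, p2 (-4 / 3) 1, p2 (-4) 0, p2 (-3 / 2) (-1), p2 (3 / 2) 1, p2 4 0,
    p2 (4 / 3) (-1)]

lemma R0_closed : IsClosed R0 := by
  have h0 := coord_cont 0
  have h1 := coord_cont 1
  exact (isClosed_le continuous_const h0).inter ((isClosed_le h0 continuous_const).inter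
    ((isClosed_le continuous_const h1).inter (isClosed_le h1 continuous_const)))

lemma O0_open : IsOpen O0 := by
  have h0 := coord_cont 0
  have h1 := coord_cont 1
  exact (isOpen_lt continuous_const h0).inter ((isOpen_lt h0 continuous_const).inter
    ((isOpen_lt continuous_const h1).inter (isOpen_lt h1 continuous_const)))

lemma R0_compact : IsCompact R0 := by
  refine Metric.isCompact_of_isClosed_isBounded R0_closed
    ((Metric.isBounded_closedBall (x := (0 : P2)) (r := 5)).subset fun p hp => ?_)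
  obtain ⟨h1, h2, h3, h4⟩ := hp
  rw [mem_closedBall_zero_iff]
  refine (pow_le_pow_iff_left₀ (norm_nonneg _) (by norm_num) two_ne_zero).1 ?_
  rw [normsq2]
  nlinarith

lemma R0_convex : Convex ℝ R0 := by
  intro p hp q hq a b ha hb hab
  obtain ⟨h1, h2, h3, h4⟩ := hp
  obtain ⟨k1, k2, k3, k4⟩ := hq
  refine ⟨?_, ?_, ?_, ?_⟩ <;> simp <;> nlinarith

lemma interior_R0 : interior R0 = O0 := by
  apply Subset.antisymm
  · intro p hp
    have hn : R0 ∈ 𝓝 p := mem_interior_iff_mem_nhds.1 hp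
    have key : ∀ v : P2, ∃ t : ℝ, 0 < t ∧ p + t • v ∈ R0 := by
      intro v
      have hc : Continuous fun t : ℝ => p + t • v := by fun_prop
      have h2 : Tendsto (fun t : ℝ => p + t • v) (𝓝[>] 0) (𝓝 p) := by
        have := (hc.tendsto 0).mono_left (nhdsWithin_le_nhds (s := Ioi 0))
        simpa using this
      obtain ⟨t, ht1, ht2⟩ := ((h2.eventually hn).and self_mem_nhdsWithin).exists
      exact ⟨t, ht2, ht1⟩
    obtain ⟨t, ht, h1, h2, h3, h4⟩ := key (p2 1 1)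
    obtain ⟨s, hs, k1, k2, k3, k4⟩ := key (p2 (-1) (-1))
    simp at h1 h2 h3 h4 k1 k2 k3 k4
    exact ⟨by linarith, by linarith, by linarith, by linarith⟩
  · exact interior_maximal (fun p hp => ⟨hp.1.le, hp.2.1.le, hp.2.2.1.le, hp.2.2.2.le⟩) O0_open

lemma O0_nonempty : (interior R0).Nonempty := by
  rw [interior_R0]
  exact ⟨p2 0 0, by simp [O0]⟩

lemma G0_plane : G0.IsPlane := by
  refine ⟨R0_compact, R0_convex.interior.isConnected O0_nonempty, ?_, ?_, ?_, ?_⟩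
  · change closure (interior R0) = R0
    rw [R0_convex.closure_interior_eq_closure_of_nonempty_interior O0_nonempty,
      R0_closed.closure_eq]
  · intro v hv
    simp only [G0, Finset.mem_insert, Finset.mem_singleton] at hv
    rcases hv with rfl | rfl | rfl | rfl | rfl | rfl | rfl | rfl <;>
      simp [G0, R0] <;> norm_num
  · intro e
    refine ⟨?_, ?_, ?_, ?_, ?_⟩
    · fin_cases e <;> simp [G0]
    · fin_cases e <;> simp [G0]
    · fin_cases e <;> simp [G0, p2_inj] <;> norm_num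
    · change _ ⊆ interior R0
      rw [interior_R0]
      intro p hp
      obtain ⟨t, h0, h1, h2, h3⟩ := mem_oseg.1 hp
      fin_cases e <;> simp [G0] at h2 h3 <;>
        exact ⟨by linarith, by linarith, by linarith, by linarith⟩
    · intro v hv hp
      obtain ⟨t, h0, h1, h2, h3⟩ := mem_oseg.1 hp
      simp only [G0, Finset.mem_insert, Finset.mem_singleton] at hv
      rcases hv with rfl | rfl | rfl | rfl | rfl | rfl | rfl | rfl <;>
        fin_cases e <;> simp [G0] at h2 h3 <;>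
        first | linarith | (rcases h2 with h2 | h2 <;> linarith)
  · intro e f hef
    rw [Set.disjoint_left]
    intro p hp hq
    obtain ⟨t, h0, h1, h2, h3⟩ := mem_oseg.1 hp
    obtain ⟨s, k0, k1, k2, k3⟩ := mem_oseg.1 hq
    fin_cases e <;> fin_cases f <;> simp [G0] at h2 h3 k2 k3 hef <;> linarith

lemma u_int : p2 (-1) 0 ∈ interior G0.region := by
  change _ ∈ interior R0
  rw [interior_R0]; simp [O0]; norm_num

lemma v_int : p2 1 0 ∈ interior G0.region := by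
  change _ ∈ interior R0
  rw [interior_R0]; simp [O0]; norm_num

lemma G0_two : G0.IsTwoVertex := by
  refine ⟨p2 (-1) 0, by simp [G0], p2 1 0, by simp [G0], by simp [p2_inj]; norm_num, u_int, v_int,
    fun w hw => ?_⟩
  change _ ∨ _ ∨ w ∈ frontier R0
  rw [R0_closed.frontier_eq, interior_R0]
  simp only [G0, Finset.mem_insert, Finset.mem_singleton] at hw
  rcases hw with rfl | rfl | rfl | rfl | rfl | rfl | rfl | rfl
  · exact Or.inl rfl
  · exact Or.inr (Or.inl rfl)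
  all_goals
    right; right
    simp [R0, O0]
    try norm_num

lemma G0_ends (e : Fin 7) : G0.src e ∈ interior G0.region := by
  fin_cases e
  all_goals first | exact u_int | exact v_int

/-- signed position relative to the oblique creases at the left vertex -/
noncomputable def fU (p : P2) : ℝ := p 0 + 1 + max (p 1) 0 / 3 + max (-p 1) 0 / 2

/-- signed position relative to the oblique creases at the right vertex -/
noncomputable def fV (p : P2) : ℝ := p 0 - 1 - max (p 1) 0 / 2 - max (-p 1) 0 / 3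

lemma fU_cont : Continuous fU := by
  have h0 := coord_cont 0
  have h1 := coord_cont 1
  unfold fU; fun_prop

lemma fV_cont : Continuous fV := by
  have h0 := coord_cont 0
  have h1 := coord_cont 1
  unfold fV; fun_prop

lemma fU_up {p : P2} (h : 0 ≤ p 1) : fU p = p 0 + 1 + p 1 / 3 := by
  unfold fU; rw [max_eq_left h, max_eq_right (by linarith)]; ring

lemma fU_dn {p : P2} (h : p 1 ≤ 0) : fU p = p 0 + 1 - p 1 / 2 := by
  unfold fU; rw [max_eq_right h, max_eq_left (by linarith)]; ring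

lemma fV_up {p : P2} (h : 0 ≤ p 1) : fV p = p 0 - 1 - p 1 / 2 := by
  unfold fV; rw [max_eq_left h, max_eq_right (by linarith)]; ring

lemma fV_dn {p : P2} (h : p 1 ≤ 0) : fV p = p 0 - 1 + p 1 / 3 := by
  unfold fV; rw [max_eq_right h, max_eq_left (by linarith)]; ring

lemma mem_creases {p : P2} (hp : p ∈ R0) :
    p ∈ G0.creases ↔ p 1 = 0 ∨ fU p = 0 ∨ fV p = 0 := by
  obtain ⟨h1, h2, h3, h4⟩ := hp
  simp only [CreasePattern.creases, mem_iUnion, mem_seg]
  constructor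
  · rintro ⟨e, t, t0, t1, k0, k1⟩
    fin_cases e <;> simp [G0] at k0 k1
    · exact Or.inl k1
    · right; left; rw [fU_up (by linarith)]; linarith
    · exact Or.inl k1
    · right; left; rw [fU_dn (by linarith)]; linarith
    · right; right; rw [fV_up (by linarith)]; linarith
    · exact Or.inl k1
    · right; right; rw [fV_dn (by linarith)]; linarith
  · rintro (h | h | h)
    · rcases le_total (p 0) (-1) with k | k
      · exact ⟨2, (-1 - p 0) / 3, by linarith, by linarith, by simp [G0]; ring, by simp [G0, h]⟩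
      · rcases le_total (p 0) 1 with k' | k'
        · exact ⟨0, (p 0 + 1) / 2, by linarith, by linarith, by simp [G0]; ring, by simp [G0, h]⟩
        · exact ⟨5, (p 0 - 1) / 3, by linarith, by linarith, by simp [G0]; ring, by simp [G0, h]⟩
    · rcases le_total 0 (p 1) with k | k
      · rw [fU_up k] at h
        exact ⟨1, p 1, k, h4, by simp [G0]; linarith, by simp [G0]⟩
      · rw [fU_dn k] at h
        exact ⟨3, -p 1, by linarith, by linarith, by simp [G0]; linarith, by simp [G0]⟩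
    · rcases le_total 0 (p 1) with k | k
      · rw [fV_up k] at h
        exact ⟨4, p 1, k, h4, by simp [G0]; linarith, by simp [G0]⟩
      · rw [fV_dn k] at h
        exact ⟨6, -p 1, by linarith, by linarith, by simp [G0]; linarith, by simp [G0]⟩

/-- the six closed faces -/
def FA : Set P2 := {p | 0 ≤ p 1 ∧ p 1 ≤ 1 ∧ -1 - p 1 / 3 ≤ p 0 ∧ p 0 ≤ 1 + p 1 / 2}
def FB : Set P2 := {p | -1 ≤ p 1 ∧ p 1 ≤ 0 ∧ -1 + p 1 / 2 ≤ p 0 ∧ p 0 ≤ 1 - p 1 / 3}
def FU1 : Set P2 := {p | 0 ≤ p 1 ∧ p 1 ≤ 1 ∧ -4 ≤ p 0 ∧ p 0 ≤ -1 - p 1 / 3}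
def FU2 : Set P2 := {p | -1 ≤ p 1 ∧ p 1 ≤ 0 ∧ -4 ≤ p 0 ∧ p 0 ≤ -1 + p 1 / 2}
def FV1 : Set P2 := {p | 0 ≤ p 1 ∧ p 1 ≤ 1 ∧ 1 + p 1 / 2 ≤ p 0 ∧ p 0 ≤ 4}
def FV2 : Set P2 := {p | -1 ≤ p 1 ∧ p 1 ≤ 0 ∧ 1 - p 1 / 3 ≤ p 0 ∧ p 0 ≤ 4}

lemma off_up {q : P2} (h1 : -4 ≤ q 0) (h2 : q 0 ≤ 4) (h3 : 0 < q 1) (h4 : q 1 ≤ 1)
    (h5 : q 0 + 1 + q 1 / 3 ≠ 0) (h6 : q 0 - 1 - q 1 / 2 ≠ 0) : q ∈ G0.region \ G0.creases := by
  have hq : q ∈ R0 := ⟨h1, h2, by linarith, h4⟩
  refine ⟨hq, ?_⟩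
  rw [mem_creases hq, fU_up h3.le, fV_up h3.le]
  push Not
  exact ⟨h3.ne', h5, h6⟩

lemma off_dn {q : P2} (h1 : -4 ≤ q 0) (h2 : q 0 ≤ 4) (h3 : q 1 < 0) (h4 : -1 ≤ q 1)
    (h5 : q 0 + 1 - q 1 / 2 ≠ 0) (h6 : q 0 - 1 + q 1 / 3 ≠ 0) : q ∈ G0.region \ G0.creases := by
  have hq : q ∈ R0 := ⟨h1, h2, h4, by linarith⟩
  refine ⟨hq, ?_⟩
  rw [mem_creases hq, fU_dn h3.le, fV_dn h3.le]
  push Not
  exact ⟨h3.ne, h5, h6⟩

/-- every explicit face lies in a face of the pattern -/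
lemma exists_face {F : Set P2} (hF : F = FA ∨ F = FB ∨ F = FU1 ∨ F = FU2 ∨ F = FV1 ∨ F = FV2) :
    ∃ x ∈ G0.region \ G0.creases, F ⊆ G0.face x := by
  have key : ∀ x : P2, x ∈ F → (∀ p ∈ F, ∀ t : ℝ, 0 < t → t ≤ 1 →
      p + t • (x - p) ∈ G0.region \ G0.creases) →
      ∃ x ∈ G0.region \ G0.creases, F ⊆ G0.face x := by
    intro x hx h
    exact ⟨x, by simpa using h x hx 1 one_pos le_rfl, fun p hp => mem_face_of_seg G0 (h p hp)⟩
  rcases hF with rfl | rfl | rfl | rfl | rfl | rfl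
  · refine key (p2 0 (1 / 2)) (by simp [FA]; norm_num) ?_
    rintro p ⟨h1, h2, h3, h4⟩ t t0 t1
    have t2 : 0 ≤ 1 - t := by linarith
    refine off_up ?_ ?_ ?_ ?_ (ne_of_gt ?_) (ne_of_lt ?_) <;> simp <;> nlinarith
  · refine key (p2 0 (-1 / 2)) (by simp [FB]; norm_num) ?_
    rintro p ⟨h1, h2, h3, h4⟩ t t0 t1
    have t2 : 0 ≤ 1 - t := by linarith
    refine off_dn ?_ ?_ ?_ ?_ (ne_of_gt ?_) (ne_of_lt ?_) <;> simp <;> nlinarith
  · refine key (p2 (-3) (1 / 2)) (by simp [FU1]; norm_num) ?_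
    rintro p ⟨h1, h2, h3, h4⟩ t t0 t1
    have t2 : 0 ≤ 1 - t := by linarith
    refine off_up ?_ ?_ ?_ ?_ (ne_of_lt ?_) (ne_of_lt ?_) <;> simp <;> nlinarith
  · refine key (p2 (-3) (-1 / 2)) (by simp [FU2]; norm_num) ?_
    rintro p ⟨h1, h2, h3, h4⟩ t t0 t1
    have t2 : 0 ≤ 1 - t := by linarith
    refine off_dn ?_ ?_ ?_ ?_ (ne_of_lt ?_) (ne_of_lt ?_) <;> simp <;> nlinarith
  · refine key (p2 3 (1 / 2)) (by simp [FV1]; norm_num) ?_
    rintro p ⟨h1, h2, h3, h4⟩ t t0 t1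
    have t2 : 0 ≤ 1 - t := by linarith
    refine off_up ?_ ?_ ?_ ?_ (ne_of_gt ?_) (ne_of_gt ?_) <;> simp <;> nlinarith
  · refine key (p2 3 (-1 / 2)) (by simp [FV2]; norm_num) ?_
    rintro p ⟨h1, h2, h3, h4⟩ t t0 t1
    have t2 : 0 ≤ 1 - t := by linarith
    refine off_dn ?_ ?_ ?_ ?_ (ne_of_gt ?_) (ne_of_gt ?_) <;> simp <;> nlinarith

/-- every face of the pattern lies in an explicit face -/
lemma face_sub {x : P2} (hx : x ∈ G0.region \ G0.creases) :
    G0.face x ⊆ FA ∨ G0.face x ⊆ FB ∨ G0.face x ⊆ FU1 ∨ G0.face x ⊆ FU2 ∨ G0.face x ⊆ FV1 ∨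
      G0.face x ⊆ FV2 := by
  have hne : ∀ p ∈ G0.region \ G0.creases, p 1 ≠ 0 ∧ fU p ≠ 0 ∧ fV p ≠ 0 := by
    intro p hp
    have := hp.2
    rw [mem_creases hp.1] at this
    push Not at this
    exact this
  have s1 := fun y => sign_on_face G0 (coord_cont 1) (fun p hp => (hne p hp).1) hx (y := y)
  have s2 := fun y => sign_on_face G0 fU_cont (fun p hp => (hne p hp).2.1) hx (y := y)
  have s3 := fun y => sign_on_face G0 fV_cont (fun p hp => (hne p hp).2.2) hx (y := y)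
  have sR := face_subset G0 R0_closed x
  obtain ⟨n1, n2, n3⟩ := hne x hx
  rcases lt_or_gt_of_ne n1 with a1 | a1
  · have b1 : ∀ y ∈ G0.face x, y 1 ≤ 0 := fun y hy => by
      have := s1 y hy
      by_contra hc
      nlinarith
    rcases lt_or_gt_of_ne n2 with a2 | a2
    · refine Or.inr (Or.inr (Or.inr (Or.inl fun y hy => ?_)))
      obtain ⟨r1, r2, r3, r4⟩ := sR hy
      have := s2 y hy
      rw [fU_dn (b1 y hy)] at this
      exact ⟨r3, b1 y hy, r1, by nlinarith⟩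
    rcases lt_or_gt_of_ne n3 with a3 | a3
    · refine Or.inr (Or.inl fun y hy => ?_)
      obtain ⟨r1, r2, r3, r4⟩ := sR hy
      have h2 := s2 y hy
      have h3 := s3 y hy
      rw [fU_dn (b1 y hy)] at h2
      rw [fV_dn (b1 y hy)] at h3
      exact ⟨r3, b1 y hy, by nlinarith, by nlinarith⟩
    · refine Or.inr (Or.inr (Or.inr (Or.inr (Or.inr fun y hy => ?_))))
      obtain ⟨r1, r2, r3, r4⟩ := sR hy
      have h3 := s3 y hy
      rw [fV_dn (b1 y hy)] at h3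
      exact ⟨r3, b1 y hy, by nlinarith, r2⟩
  · have b1 : ∀ y ∈ G0.face x, 0 ≤ y 1 := fun y hy => by
      have := s1 y hy
      by_contra hc
      nlinarith
    rcases lt_or_gt_of_ne n2 with a2 | a2
    · refine Or.inr (Or.inr (Or.inl fun y hy => ?_))
      obtain ⟨r1, r2, r3, r4⟩ := sR hy
      have := s2 y hy
      rw [fU_up (b1 y hy)] at this
      exact ⟨b1 y hy, r4, r1, by nlinarith⟩
    rcases lt_or_gt_of_ne n3 with a3 | a3
    · refine Or.inl fun y hy => ?_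
      obtain ⟨r1, r2, r3, r4⟩ := sR hy
      have h2 := s2 y hy
      have h3 := s3 y hy
      rw [fU_up (b1 y hy)] at h2
      rw [fV_up (b1 y hy)] at h3
      exact ⟨b1 y hy, r4, by nlinarith, by nlinarith⟩
    · refine Or.inr (Or.inr (Or.inr (Or.inr (Or.inl fun y hy => ?_))))
      obtain ⟨r1, r2, r3, r4⟩ := sR hy
      have h3 := s3 y hy
      rw [fV_up (b1 y hy)] at h3
      exact ⟨b1 y hy, r4, by nlinarith, r2⟩

end Pool.Agent.MP_aa2243_gt

end MrgPart1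

-- ======== part 2: formerly Pool.Agent.MP_aa2243_gt.States
section MrgPart2

/-!
Folding angles at the seven creases, and the explicit embedded states.
-/

set_option autoImplicit false

open Set Real Filter Topology

namespace Pool.Agent.MP_aa2243_gt

lemma norm_p2_sub (a b c d : ℝ) : ‖p2 a b - p2 c d‖ ^ 2 = (a - c) ^ 2 + (b - d) ^ 2 := by
  rw [normsq2]; simp

lemma norm_eq_of_sq {v : P2} {l : ℝ} (hl : 0 ≤ l) (h : ‖v‖ ^ 2 = l ^ 2) : ‖v‖ = l :=
  (sq_eq_sq₀ (norm_nonneg _) hl).1 h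

section creases

variable {σ : P2 → P3} {o P Q o' P' Q' : P3} {ρ : ℝ}

lemma fold0 (hL : AffOn σ FA o P Q) (hR : AffOn σ FB o' P' Q') :
    FoldsBy σ (p2 (-1) 0) (p2 1 0) ρ ↔ inner ℝ Q Q' = cos ρ ∧ det3 P Q' Q = sin ρ := by
  rw [foldsBy_iff hL hR (by simp [FA]) (by simp [FA]) (δ := 1 / 10) (by norm_num)
    (fun t ht => by obtain ⟨h0, h1⟩ := ht; simp [FA]; refine ⟨?_, ?_, ?_, ?_⟩ <;> linarith)
    (fun t ht => by obtain ⟨h0, h1⟩ := ht; simp [FB]; refine ⟨?_, ?_, ?_, ?_⟩ <;> linarith),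
    norm_eq_of_sq (l := 2) (by norm_num) (by rw [norm_p2_sub]; norm_num)]
  simp only [inner3, det3_eq]
  simp
  constructor <;> rintro ⟨h1, h2⟩ <;> constructor <;> linarith

lemma fold2 (hL : AffOn σ FU2 o P Q) (hR : AffOn σ FU1 o' P' Q') :
    FoldsBy σ (p2 (-1) 0) (p2 (-4) 0) ρ ↔ inner ℝ Q Q' = cos ρ ∧ det3 P Q Q' = sin ρ := by
  rw [foldsBy_iff hL hR (by simp [FU2]) (by simp [FU2]) (δ := 1 / 10)
    (by norm_num)
    (fun t ht => by obtain ⟨h0, h1⟩ := ht; simp [FU2]; refine ⟨?_, ?_, ?_, ?_⟩ <;> linarith)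
    (fun t ht => by obtain ⟨h0, h1⟩ := ht; simp [FU1]; refine ⟨?_, ?_, ?_, ?_⟩ <;> linarith),
    norm_eq_of_sq (l := 3) (by norm_num) (by rw [norm_p2_sub]; norm_num)]
  simp only [inner3, det3_eq]
  simp
  constructor <;> rintro ⟨h1, h2⟩ <;> constructor <;> linarith

lemma fold5 (hL : AffOn σ FV1 o P Q) (hR : AffOn σ FV2 o' P' Q') :
    FoldsBy σ (p2 1 0) (p2 4 0) ρ ↔ inner ℝ Q Q' = cos ρ ∧ det3 P Q' Q = sin ρ := by
  rw [foldsBy_iff hL hR (by simp [FV1]) (by simp [FV1]) (δ := 1 / 10)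
    (by norm_num)
    (fun t ht => by obtain ⟨h0, h1⟩ := ht; simp [FV1]; refine ⟨?_, ?_, ?_, ?_⟩ <;> linarith)
    (fun t ht => by obtain ⟨h0, h1⟩ := ht; simp [FV2]; refine ⟨?_, ?_, ?_, ?_⟩ <;> linarith),
    norm_eq_of_sq (l := 3) (by norm_num) (by rw [norm_p2_sub]; norm_num)]
  simp only [inner3, det3_eq]
  simp
  constructor <;> rintro ⟨h1, h2⟩ <;> constructor <;> linarith

lemma fold1 (hL : AffOn σ FU1 o P Q) (hR : AffOn σ FA o' P' Q') :
    FoldsBy σ (p2 (-1) 0) (p2 (-4 / 3) 1) ρ ↔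
      inner ℝ ((-1 : ℝ) • P + (-1 / 3 : ℝ) • Q) ((-1 : ℝ) • P' + (-1 / 3 : ℝ) • Q') =
        ‖p2 (-4 / 3) 1 - p2 (-1) 0‖ ^ 2 * cos ρ ∧
      det3 ((-1 / 3 : ℝ) • P + Q) ((-1 : ℝ) • P' + (-1 / 3 : ℝ) • Q')
        ((-1 : ℝ) • P + (-1 / 3 : ℝ) • Q) = ‖p2 (-4 / 3) 1 - p2 (-1) 0‖ ^ 3 * sin ρ := by
  rw [foldsBy_iff hL hR (by simp [FU1]) (by simp [FU1]; norm_num) (δ := 1 / 10)
    (by norm_num)
    (fun t ht => by obtain ⟨h0, h1⟩ := ht; simp [FU1]; refine ⟨?_, ?_, ?_, ?_⟩ <;> linarith)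
    (fun t ht => by obtain ⟨h0, h1⟩ := ht; simp [FA]; refine ⟨?_, ?_, ?_, ?_⟩ <;> linarith)]
  norm_num

lemma fold3 (hL : AffOn σ FB o P Q) (hR : AffOn σ FU2 o' P' Q') :
    FoldsBy σ (p2 (-1) 0) (p2 (-3 / 2) (-1)) ρ ↔
      inner ℝ (P + (-1 / 2 : ℝ) • Q) (P' + (-1 / 2 : ℝ) • Q') =
        ‖p2 (-3 / 2) (-1) - p2 (-1) 0‖ ^ 2 * cos ρ ∧
      det3 ((-1 / 2 : ℝ) • P + (-1 : ℝ) • Q) (P' + (-1 / 2 : ℝ) • Q')
        (P + (-1 / 2 : ℝ) • Q) = ‖p2 (-3 / 2) (-1) - p2 (-1) 0‖ ^ 3 * sin ρ := by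
  rw [foldsBy_iff hL hR (by simp [FB]) (by simp [FB]; norm_num) (δ := 1 / 10)
    (by norm_num)
    (fun t ht => by obtain ⟨h0, h1⟩ := ht; simp [FB]; refine ⟨?_, ?_, ?_, ?_⟩ <;> linarith)
    (fun t ht => by obtain ⟨h0, h1⟩ := ht; simp [FU2]; refine ⟨?_, ?_, ?_, ?_⟩ <;> linarith)]
  norm_num

lemma fold4 (hL : AffOn σ FA o P Q) (hR : AffOn σ FV1 o' P' Q') :
    FoldsBy σ (p2 1 0) (p2 (3 / 2) 1) ρ ↔
      inner ℝ ((-1 : ℝ) • P + (1 / 2 : ℝ) • Q) ((-1 : ℝ) • P' + (1 / 2 : ℝ) • Q') =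
        ‖p2 (3 / 2) 1 - p2 1 0‖ ^ 2 * cos ρ ∧
      det3 ((1 / 2 : ℝ) • P + Q) ((-1 : ℝ) • P' + (1 / 2 : ℝ) • Q')
        ((-1 : ℝ) • P + (1 / 2 : ℝ) • Q) = ‖p2 (3 / 2) 1 - p2 1 0‖ ^ 3 * sin ρ := by
  rw [foldsBy_iff hL hR (by simp [FA]) (by simp [FA]; norm_num) (δ := 1 / 10)
    (by norm_num)
    (fun t ht => by obtain ⟨h0, h1⟩ := ht; simp [FA]; refine ⟨?_, ?_, ?_, ?_⟩ <;> linarith)
    (fun t ht => by obtain ⟨h0, h1⟩ := ht; simp [FV1]; refine ⟨?_, ?_, ?_, ?_⟩ <;> linarith)]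
  norm_num

lemma fold6 (hL : AffOn σ FV2 o P Q) (hR : AffOn σ FB o' P' Q') :
    FoldsBy σ (p2 1 0) (p2 (4 / 3) (-1)) ρ ↔
      inner ℝ (P + (1 / 3 : ℝ) • Q) (P' + (1 / 3 : ℝ) • Q') =
        ‖p2 (4 / 3) (-1) - p2 1 0‖ ^ 2 * cos ρ ∧
      det3 ((1 / 3 : ℝ) • P + (-1 : ℝ) • Q) (P' + (1 / 3 : ℝ) • Q')
        (P + (1 / 3 : ℝ) • Q) = ‖p2 (4 / 3) (-1) - p2 1 0‖ ^ 3 * sin ρ := by
  rw [foldsBy_iff hL hR (by simp [FV2]) (by simp [FV2]; norm_num) (δ := 1 / 10)
    (by norm_num)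
    (fun t ht => by obtain ⟨h0, h1⟩ := ht; simp [FV2]; refine ⟨?_, ?_, ?_, ?_⟩ <;> linarith)
    (fun t ht => by obtain ⟨h0, h1⟩ := ht; simp [FB]; refine ⟨?_, ?_, ?_, ?_⟩ <;> linarith)]
  norm_num

end creases

/-- the piecewise linear folding with given directions -/
noncomputable def foldMap (P QA QB PU PV : P3) (p : P2) : P3 :=
  p 0 • P + max (p 1) 0 • QA - max (-p 1) 0 • QB + min (fU p) 0 • (PU - P) +
    max (fV p) 0 • (PV - P)

section foldMap

variable (P QA QB PU PV : P3)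

lemma foldMap_cont : Continuous (foldMap P QA QB PU PV) := by
  have h0 := coord_cont 0
  have h1 := coord_cont 1
  have h2 := fU_cont
  have h3 := fV_cont
  unfold foldMap
  fun_prop

lemma affA : AffOn (foldMap P QA QB PU PV) FA 0 P QA := by
  rintro p ⟨h1, h2, h3, h4⟩
  unfold foldMap
  rw [fU_up h1, fV_up h1, max_eq_left h1, max_eq_right (by linarith), min_eq_right (by linarith),
    max_eq_right (by linarith)]
  ext i; simp

lemma affB : AffOn (foldMap P QA QB PU PV) FB 0 P QB := by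
  rintro p ⟨h1, h2, h3, h4⟩
  unfold foldMap
  rw [fU_dn h2, fV_dn h2, max_eq_right h2, max_eq_left (by linarith), min_eq_right (by linarith),
    max_eq_right (by linarith)]
  ext i; simp

lemma affU1 : AffOn (foldMap P QA QB PU PV) FU1 (PU - P) PU (QA + (1 / 3 : ℝ) • (PU - P)) := by
  rintro p ⟨h1, h2, h3, h4⟩
  unfold foldMap
  rw [fU_up h1, fV_up h1, max_eq_left h1, max_eq_right (by linarith), min_eq_left (by linarith),
    max_eq_right (by linarith)]
  ext i; simp; ring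

lemma affU2 : AffOn (foldMap P QA QB PU PV) FU2 (PU - P) PU (QB - (1 / 2 : ℝ) • (PU - P)) := by
  rintro p ⟨h1, h2, h3, h4⟩
  unfold foldMap
  rw [fU_dn h2, fV_dn h2, max_eq_right h2, max_eq_left (by linarith), min_eq_left (by linarith),
    max_eq_right (by linarith)]
  ext i; simp; ring

lemma affV1 : AffOn (foldMap P QA QB PU PV) FV1 (P - PV) PV (QA - (1 / 2 : ℝ) • (PV - P)) := by
  rintro p ⟨h1, h2, h3, h4⟩
  unfold foldMap
  rw [fU_up h1, fV_up h1, max_eq_left h1, max_eq_right (by linarith), min_eq_right (by linarith),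
    max_eq_left (by linarith)]
  ext i; simp; ring

lemma affV2 : AffOn (foldMap P QA QB PU PV) FV2 (P - PV) PV (QB + (1 / 3 : ℝ) • (PV - P)) := by
  rintro p ⟨h1, h2, h3, h4⟩
  unfold foldMap
  rw [fU_dn h2, fV_dn h2, max_eq_right h2, max_eq_left (by linarith), min_eq_right (by linarith),
    max_eq_left (by linarith)]
  ext i; simp; ring

lemma foldMap_iso (hA : ON P QA) (hB : ON P QB) (hU1 : ON PU (QA + (1 / 3 : ℝ) • (PU - P)))
    (hU2 : ON PU (QB - (1 / 2 : ℝ) • (PU - P))) (hV1 : ON PV (QA - (1 / 2 : ℝ) • (PV - P)))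
    (hV2 : ON PV (QB + (1 / 3 : ℝ) • (PV - P))) :
    ∀ x ∈ G0.region \ G0.creases, ∀ y ∈ G0.face x, ∀ z ∈ G0.face x,
      dist (foldMap P QA QB PU PV y) (foldMap P QA QB PU PV z) = dist y z := by
  intro x hx y hy z hz
  rcases face_sub hx with h | h | h | h | h | h
  · exact (affA P QA QB PU PV).dist_eq hA (h hy) (h hz)
  · exact (affB P QA QB PU PV).dist_eq hB (h hy) (h hz)
  · exact (affU1 P QA QB PU PV).dist_eq hU1 (h hy) (h hz)
  · exact (affU2 P QA QB PU PV).dist_eq hU2 (h hy) (h hz)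
  · exact (affV1 P QA QB PU PV).dist_eq hV1 (h hy) (h hz)
  · exact (affV2 P QA QB PU PV).dist_eq hV2 (h hy) (h hz)

end foldMap

lemma cover {p : P2} (hp : p ∈ R0) :
    p ∈ FA ∨ p ∈ FB ∨ p ∈ FU1 ∨ p ∈ FU2 ∨ p ∈ FV1 ∨ p ∈ FV2 := by
  obtain ⟨h1, h2, h3, h4⟩ := hp
  rcases le_total 0 (p 1) with k | k
  · rcases le_total (p 0) (-1 - p 1 / 3) with k1 | k1
    · exact Or.inr (Or.inr (Or.inl ⟨k, h4, h1, k1⟩))
    · rcases le_total (p 0) (1 + p 1 / 2) with k2 | k2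
      · exact Or.inl ⟨k, h4, k1, k2⟩
      · exact Or.inr (Or.inr (Or.inr (Or.inr (Or.inl ⟨k, h4, k2, h2⟩))))
  · rcases le_total (p 0) (-1 + p 1 / 2) with k1 | k1
    · exact Or.inr (Or.inr (Or.inr (Or.inl ⟨h3, k, h1, k1⟩)))
    · rcases le_total (p 0) (1 - p 1 / 3) with k2 | k2
      · exact Or.inr (Or.inl ⟨h3, k, k1, k2⟩)
      · exact Or.inr (Or.inr (Or.inr (Or.inr (Or.inr ⟨h3, k, k2, h2⟩))))

/-- folding along the straight line of creases -/
lemma line_state {t : ℝ} (h0 : 0 ≤ t) (h1 : t ≤ 1) :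
    (![t, 0, t, 0, 0, t, 0] : Fin 7 → ℝ) ∈ G0.embeddedStates := by
  have hpi := pi_gt_three
  have hc : 0 < cos t := cos_pos_of_mem_Ioo ⟨by linarith, by linarith⟩
  have hcs := cos_sq_add_sin_sq t
  set P := p3 1 0 0 with hP
  set QA := p3 0 1 0 with hQA
  set QB := p3 0 (cos t) (-sin t) with hQB
  have aA := affA P QA QB P P
  have aB := affB P QA QB P P
  have aU1 := affU1 P QA QB P P
  have aU2 := affU2 P QA QB P P
  have aV1 := affV1 P QA QB P P
  have aV2 := affV2 P QA QB P P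
  refine ⟨fun e => ?_, foldMap P QA QB P P, ⟨(foldMap_cont _ _ _ _ _).continuousOn,
    foldMap_iso _ _ _ _ _ ?_ ?_ ?_ ?_ ?_ ?_, fun e => ?_⟩, ?_⟩
  · fin_cases e <;> simp <;> first | linarith | (constructor <;> linarith)
  · simp only [ON, inner3]; simp [hP, hQA]
  · simp only [ON, inner3]; simp [hP, hQB]; linarith
  · simp only [ON, inner3]; simp [hP, hQA]
  · simp only [ON, inner3]; simp [hP, hQB]; linarith
  · simp only [ON, inner3]; simp [hP, hQA]
  · simp only [ON, inner3]; simp [hP, hQB]; linarith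
  · fin_cases e
    · exact (fold0 aA aB).2 (by simp only [inner3, det3_eq]; simp [hP, hQA, hQB])
    · exact (fold1 aU1 aA).2 (by
        rw [norm_p2_sub]; simp only [inner3, det3_eq]; simp [hP, hQA]; norm_num)
    · exact (fold2 aU2 aU1).2 (by simp only [inner3, det3_eq]; simp [hP, hQA, hQB])
    · exact (fold3 aB aU2).2 (by
        rw [norm_p2_sub]; simp only [inner3, det3_eq]; simp [hP, hQB]; constructor <;> nlinarith)
    · exact (fold4 aA aV1).2 (by
        rw [norm_p2_sub]; simp only [inner3, det3_eq]; simp [hP, hQA]; norm_num)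
    · exact (fold5 aV1 aV2).2 (by simp only [inner3, det3_eq]; simp [hP, hQA, hQB])
    · exact (fold6 aV2 aB).2 (by
        rw [norm_p2_sub]; simp only [inner3, det3_eq]; simp [hP, hQB]; constructor <;> nlinarith)
  · intro p _ q _ h
    have e0 := congrArg (· 0) h
    have e1 := congrArg (· 1) h
    simp [foldMap, hP, hQA, hQB] at e0 e1
    refine P2_ext e0 ?_
    rcases le_total 0 (p 1) with k | k <;> rcases le_total 0 (q 1) with k' | k'
    · rw [max_eq_left k, max_eq_left k', max_eq_right (by linarith), max_eq_right (by linarith)]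
        at e1
      linarith
    · rw [max_eq_left k, max_eq_right k', max_eq_right (by linarith), max_eq_left (by linarith)]
        at e1
      nlinarith
    · rw [max_eq_right k, max_eq_left k', max_eq_left (by linarith), max_eq_right (by linarith)]
        at e1
      nlinarith
    · rw [max_eq_right k, max_eq_right k', max_eq_left (by linarith), max_eq_left (by linarith)]
        at e1
      have : (p 1 - q 1) * cos t = 0 := by linarith
      rcases mul_eq_zero.1 this with h | h <;> linarith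

lemma foldable : FoldableIn G0.embeddedStates := by
  refine ⟨fun t => ![t, 0, t, 0, 0, t, 0], ?_, ?_, ⟨1, fun h => ?_⟩,
    fun t => line_state t.2.1 t.2.2⟩
  · refine continuous_pi fun e => ?_
    fin_cases e <;> simp <;> fun_prop
  · ext e; fin_cases e <;> simp
  · simpa using congrFun h 0

end Pool.Agent.MP_aa2243_gt

end MrgPart2

-- ======== part 3: formerly Pool.Agent.MP_aa2243_gt.Locked
section MrgPart3

/-!
The locked embedded state.
-/

set_option autoImplicit false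

open Set Real Filter Topology

namespace Pool.Agent.MP_aa2243_gt

/-- directions of the locked state -/
noncomputable def lP : P3 := p3 1 0 0
noncomputable def lA : P3 := p3 0 1 0
noncomputable def lB : P3 := p3 0 (-3 / 5) (-4 / 5)
noncomputable def lU : P3 := p3 (-431 / 721) (-384 / 721) (-432 / 721)
noncomputable def lV : P3 := p3 (-431 / 721) (576 / 721) (48 / 721)

lemma locked_inj : InjOn (foldMap lP lA lB lU lV) R0 := by
  have aA := affA lP lA lB lU lV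
  have aB := affB lP lA lB lU lV
  have aU1 := affU1 lP lA lB lU lV
  have aU2 := affU2 lP lA lB lU lV
  have aV1 := affV1 lP lA lB lU lV
  have aV2 := affV2 lP lA lB lU lV
  intro p hp q hq h
  have key : ∀ {F F' : Set P2} {o P Q o' P' Q' : P3}, AffOn (foldMap lP lA lB lU lV) F o P Q →
      AffOn (foldMap lP lA lB lU lV) F' o' P' Q' → p ∈ F → q ∈ F' →
      (o 0 + p 0 * P 0 + p 1 * Q 0 = o' 0 + q 0 * P' 0 + q 1 * Q' 0) ∧
      (o 1 + p 0 * P 1 + p 1 * Q 1 = o' 1 + q 0 * P' 1 + q 1 * Q' 1) ∧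
      (o 2 + p 0 * P 2 + p 1 * Q 2 = o' 2 + q 0 * P' 2 + q 1 * Q' 2) := by
    intro F F' o P Q o' P' Q' h1 h2 h3 h4
    rw [h1 p h3, h2 q h4] at h
    exact ⟨by simpa using congrArg (· 0) h, by simpa using congrArg (· 1) h,
      by simpa using congrArg (· 2) h⟩
  rcases cover hp with k | k | k | k | k | k <;> rcases cover hq with l | l | l | l | l | l
  all_goals
    obtain ⟨e0, e1, e2⟩ := key (by assumption) (by assumption) k l
    obtain ⟨k1, k2, k3, k4⟩ := k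
    obtain ⟨l1, l2, l3, l4⟩ := l
    simp only [lP, lA, lB, lU, lV, PiLp.add_apply, PiLp.sub_apply, PiLp.smul_apply,
      PiLp.zero_apply, smul_eq_mul, p3_0, p3_1, p3_2] at e0 e1 e2
    exact P2_ext (by linarith) (by linarith)

lemma locked_state : ∃ ρ ∈ G0.embeddedStates, π / 2 < ρ 0 ∧ ρ 2 < 0 ∧ ρ 5 < 0 := by
  have aA := affA lP lA lB lU lV
  have aB := affB lP lA lB lU lV
  have aU1 := affU1 lP lA lB lU lV
  have aU2 := affU2 lP lA lB lU lV
  have aV1 := affV1 lP lA lB lU lV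
  have aV2 := affV2 lP lA lB lU lV
  set θ := arccos (-3 / 5) with hθ
  have hc : cos θ = -3 / 5 := cos_arccos (by norm_num) (by norm_num)
  have hs : sin θ = 4 / 5 := by
    rw [hθ, sin_arccos, show (1 - (-3 / 5 : ℝ) ^ 2) = (4 / 5) ^ 2 by norm_num,
      Real.sqrt_sq (by norm_num)]
  have h1 : π / 2 < θ := by
    rw [hθ, ← arccos_zero]
    exact arccos_lt_arccos (by norm_num) (by norm_num) (by norm_num)
  have h2 : θ < π := arccos_lt_pi.2 (by norm_num)
  have hpi := pi_pos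
  have ex : ∀ {x y : ℝ} {v : P2} (c : ℝ), ‖v‖ ^ 2 = c → 0 < c → x ^ 2 * c + y ^ 2 = c ^ 3 →
      -c < x → ∃ ρ ∈ Ioo (-π) π, x = ‖v‖ ^ 2 * cos ρ ∧ y = ‖v‖ ^ 3 * sin ρ := by
    intro x y v c hv hc0 h hx
    refine exists_angle ?_ (by rw [hv]; exact h) (by rw [hv]; exact hx)
    rcases (norm_nonneg v).lt_or_eq with h3 | h3
    · exact h3
    · rw [← h3] at hv; linarith
  obtain ⟨r1, hr1, f1⟩ : ∃ ρ ∈ Ioo (-π) π,
      FoldsBy (foldMap lP lA lB lU lV) (p2 (-1) 0) (p2 (-4 / 3) 1) ρ := by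
    simp only [fold1 aU1 aA]
    refine ex (10 / 9) (by rw [norm_p2_sub]; norm_num) (by norm_num) ?_ ?_ <;>
      simp only [inner3, det3_eq] <;> simp [lP, lA, lU] <;> norm_num
  obtain ⟨r3, hr3, f3⟩ : ∃ ρ ∈ Ioo (-π) π,
      FoldsBy (foldMap lP lA lB lU lV) (p2 (-1) 0) (p2 (-3 / 2) (-1)) ρ := by
    simp only [fold3 aB aU2]
    refine ex (5 / 4) (by rw [norm_p2_sub]; norm_num) (by norm_num) ?_ ?_ <;>
      simp only [inner3, det3_eq] <;> simp [lP, lB, lU] <;> norm_num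
  obtain ⟨r4, hr4, f4⟩ : ∃ ρ ∈ Ioo (-π) π,
      FoldsBy (foldMap lP lA lB lU lV) (p2 1 0) (p2 (3 / 2) 1) ρ := by
    simp only [fold4 aA aV1]
    refine ex (5 / 4) (by rw [norm_p2_sub]; norm_num) (by norm_num) ?_ ?_ <;>
      simp only [inner3, det3_eq] <;> simp [lP, lA, lV] <;> norm_num
  obtain ⟨r6, hr6, f6⟩ : ∃ ρ ∈ Ioo (-π) π,
      FoldsBy (foldMap lP lA lB lU lV) (p2 1 0) (p2 (4 / 3) (-1)) ρ := by
    simp only [fold6 aV2 aB]
    refine ex (10 / 9) (by rw [norm_p2_sub]; norm_num) (by norm_num) ?_ ?_ <;>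
      simp only [inner3, det3_eq] <;> simp [lP, lB, lV] <;> norm_num
  refine ⟨![θ, r1, -θ, r3, r4, -θ, r6], ⟨fun e => ?_, foldMap lP lA lB lU lV,
    ⟨(foldMap_cont _ _ _ _ _).continuousOn, foldMap_iso _ _ _ _ _ ?_ ?_ ?_ ?_ ?_ ?_, fun e => ?_⟩,
    locked_inj⟩, h1, by simp; linarith, by simp; linarith⟩
  · fin_cases e
    · exact ⟨by simp; linarith, by simpa using h2⟩
    · exact hr1
    · exact ⟨by simpa using h2, by simp; linarith⟩
    · exact hr3
    · exact hr4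
    · exact ⟨by simpa using h2, by simp; linarith⟩
    · exact hr6
  · simp only [ON, inner3]; simp [lP, lA]
  · simp only [ON, inner3]; simp [lP, lB]; norm_num
  · simp only [ON, inner3]; simp [lP, lA, lU]; norm_num
  · simp only [ON, inner3]; simp [lP, lB, lU]; norm_num
  · simp only [ON, inner3]; simp [lP, lA, lV]; norm_num
  · simp only [ON, inner3]; simp [lP, lB, lV]; norm_num
  · fin_cases e
    · exact (fold0 aA aB).2 (by
        simp only [inner3, det3_eq]; simp [lP, lA, lB, hc, hs]; norm_num)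
    · exact f1
    · exact (fold2 aU2 aU1).2 (by
        simp only [inner3, det3_eq]; simp [lP, lA, lB, lU, hc, hs]; norm_num)
    · exact f3
    · exact f4
    · exact (fold5 aV1 aV2).2 (by
        simp only [inner3, det3_eq]; simp [lP, lA, lB, lV, hc, hs]; norm_num)
    · exact f6

end Pool.Agent.MP_aa2243_gt

end MrgPart3

-- ======== part 4: formerly Pool.Agent.MP_aa2243_gt.Blocked
section MrgPart4

/-!
Kinematics of an arbitrary folding of the pattern, and the blocked state.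
-/

set_option autoImplicit false

open Set Real Filter Topology

namespace Pool.Agent.MP_aa2243_gt

/-- structure of an arbitrary folding -/
lemma structure_of_folding {ρ : Fin 7 → ℝ} {σ : P2 → P3} (h : G0.IsFolding ρ σ) :
    ∃ o P QA QB PU PV : P3,
      AffOn σ FU1 (o + (PU - P)) PU (QA + (1 / 3 : ℝ) • (PU - P)) ∧
      AffOn σ FV2 (o + (P - PV)) PV (QB + (1 / 3 : ℝ) • (PV - P)) ∧
      ON P QA ∧ ON P QB ∧ ON PU (QA + (1 / 3 : ℝ) • (PU - P)) ∧
      ON PU (QB - (1 / 2 : ℝ) • (PU - P)) ∧ ON PV (QA - (1 / 2 : ℝ) • (PV - P)) ∧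
      ON PV (QB + (1 / 3 : ℝ) • (PV - P)) ∧
      (inner ℝ QA QB = cos (ρ 0) ∧ det3 P QB QA = sin (ρ 0)) ∧
      (inner ℝ (QB - (1 / 2 : ℝ) • (PU - P)) (QA + (1 / 3 : ℝ) • (PU - P)) = cos (ρ 2) ∧
        det3 PU (QB - (1 / 2 : ℝ) • (PU - P)) (QA + (1 / 3 : ℝ) • (PU - P)) = sin (ρ 2)) ∧
      (inner ℝ (QA - (1 / 2 : ℝ) • (PV - P)) (QB + (1 / 3 : ℝ) • (PV - P)) = cos (ρ 5) ∧
        det3 PV (QB + (1 / 3 : ℝ) • (PV - P)) (QA - (1 / 2 : ℝ) • (PV - P)) = sin (ρ 5)) := by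
  obtain ⟨-, hiso, hang⟩ := h
  have iso : ∀ {F : Set P2}, (F = FA ∨ F = FB ∨ F = FU1 ∨ F = FU2 ∨ F = FV1 ∨ F = FV2) →
      ∀ y ∈ F, ∀ z ∈ F, dist (σ y) (σ z) = dist y z := by
    intro F hF y hy z hz
    obtain ⟨x, hx, hs⟩ := exists_face hF
    exact hiso x hx y (hs hy) z (hs hz)
  obtain ⟨o, P, QA, nA, aA⟩ := affOn_of_iso (iso (F := FA) (by simp)) (x := 0) (y := 0) (a := 1)
    (b := 1) (by norm_num) (by norm_num) (by simp [FA]) (by simp [FA]) (by simp [FA]; norm_num)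
  obtain ⟨oB, PB, QB, nB, aB⟩ := affOn_of_iso (iso (F := FB) (by simp)) (x := 0) (y := 0) (a := 1)
    (b := -1) (by norm_num) (by norm_num) (by simp [FB]) (by simp [FB]) (by simp [FB]; norm_num)
  obtain ⟨o1, PU, Q1, n1, a1⟩ := affOn_of_iso (iso (F := FU1) (by simp)) (x := -2) (y := 0)
    (a := -1) (b := 1) (by norm_num) (by norm_num) (by simp [FU1]; norm_num)
    (by simp [FU1]; norm_num) (by simp [FU1]; norm_num)
  obtain ⟨o2, P2', Q2, n2, a2⟩ := affOn_of_iso (iso (F := FU2) (by simp)) (x := -2) (y := 0)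
    (a := -1) (b := -1) (by norm_num) (by norm_num) (by simp [FU2]; norm_num)
    (by simp [FU2]; norm_num) (by simp [FU2]; norm_num)
  obtain ⟨o3, PV, Q3, n3, a3⟩ := affOn_of_iso (iso (F := FV1) (by simp)) (x := 2) (y := 0)
    (a := 1) (b := 1) (by norm_num) (by norm_num) (by simp [FV1]; norm_num)
    (by simp [FV1]; norm_num) (by simp [FV1]; norm_num)
  obtain ⟨o4, P4, Q4, n4, a4⟩ := affOn_of_iso (iso (F := FV2) (by simp)) (x := 2) (y := 0)
    (a := 1) (b := -1) (by norm_num) (by norm_num) (by simp [FV2]; norm_num)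
    (by simp [FV2]; norm_num) (by simp [FV2]; norm_num)
  have glue : ∀ {F F' : Set P2} {o P Q o' P' Q' : P3}, AffOn σ F o P Q → AffOn σ F' o' P' Q' →
      ∀ x y : ℝ, p2 x y ∈ F → p2 x y ∈ F' → ∀ i,
        o i + x * P i + y * Q i = o' i + x * P' i + y * Q' i := by
    intro F F' o P Q o' P' Q' h1 h2 x y h3 h4 i
    have := (h1 _ h3).symm.trans (h2 _ h4)
    simpa using congrArg (· i) this
  have g1 := glue aA aB (-1) 0 (by simp [FA]) (by simp [FB])
  have g2 := glue aA aB 1 0 (by simp [FA]) (by simp [FB])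
  have g3 := glue a1 a2 (-1) 0 (by simp [FU1]) (by simp [FU2])
  have g4 := glue a1 a2 (-4) 0 (by simp [FU1]) (by simp [FU2])
  have g5 := glue a3 a4 1 0 (by simp [FV1]) (by simp [FV2])
  have g6 := glue a3 a4 4 0 (by simp [FV1]) (by simp [FV2])
  have g7 := glue aA a1 (-1) 0 (by simp [FA]) (by simp [FU1])
  have g8 := glue aA a1 (-4 / 3) 1 (by simp [FA]; norm_num) (by simp [FU1]; norm_num)
  have g9 := glue aB a2 (-3 / 2) (-1) (by simp [FB]; norm_num) (by simp [FU2]; norm_num)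
  have g10 := glue aA a3 1 0 (by simp [FA]) (by simp [FV1])
  have g11 := glue aA a3 (3 / 2) 1 (by simp [FA]; norm_num) (by simp [FV1]; norm_num)
  have g12 := glue aB a4 (4 / 3) (-1) (by simp [FB]; norm_num) (by simp [FV2]; norm_num)
  obtain rfl : P = PB := by ext i; linarith [g1 i, g2 i]
  obtain rfl : o = oB := by ext i; linarith [g1 i, g2 i]
  obtain rfl : PU = P2' := by ext i; linarith [g3 i, g4 i]
  obtain rfl : o1 = o2 := by ext i; linarith [g3 i, g4 i]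
  obtain rfl : PV = P4 := by ext i; linarith [g5 i, g6 i]
  obtain rfl : o3 = o4 := by ext i; linarith [g5 i, g6 i]
  obtain rfl : o1 = o + (PU - P) := by ext i; simp; linarith [g7 i]
  obtain rfl : o3 = o + (P - PV) := by ext i; simp; linarith [g10 i]
  simp only [PiLp.add_apply, PiLp.sub_apply] at g8 g9 g11 g12
  obtain rfl : Q1 = QA + (1 / 3 : ℝ) • (PU - P) := by ext i; simp; linarith [g8 i]
  obtain rfl : Q2 = QB - (1 / 2 : ℝ) • (PU - P) := by ext i; simp; linarith [g9 i]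
  obtain rfl : Q3 = QA - (1 / 2 : ℝ) • (PV - P) := by ext i; simp; linarith [g11 i]
  obtain rfl : Q4 = QB + (1 / 3 : ℝ) • (PV - P) := by ext i; simp; linarith [g12 i]
  exact ⟨o, P, QA, QB, PU, PV, a1, a4, nA, nB, n1, n2, n3, n4, (fold0 aA aB).1 (hang 0),
    (fold2 a2 a1).1 (hang 2), (fold5 a3 a4).1 (hang 5)⟩

lemma cos_eq {ρ : Fin 7 → ℝ} {σ : P2 → P3} (h : G0.IsFolding ρ σ) :
    cos (ρ 2) = cos (ρ 0) ∧ cos (ρ 5) = cos (ρ 0) := by
  obtain ⟨o, P, QA, QB, PU, PV, -, -, ⟨hP, -, nA⟩, ⟨-, -, nB⟩, ⟨hU, -, n1⟩, ⟨-, -, n2⟩,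
    ⟨hV, -, n3⟩, ⟨-, -, n4⟩, ⟨c0, -⟩, ⟨c2, -⟩, ⟨c5, -⟩⟩ := structure_of_folding h
  rw [← c0, ← c2, ← c5]
  simp only [inner3, PiLp.add_apply, PiLp.sub_apply, PiLp.smul_apply, smul_eq_mul] at *
  constructor
  · linear_combination (1 / 3) * n2 - (1 / 2) * n1 - (1 / 3) * nB + (1 / 2) * nA +
      (1 / 6) * hU - (1 / 6) * hP
  · linear_combination (1 / 3) * n3 - (1 / 2) * n4 - (1 / 3) * nA + (1 / 2) * nB +
      (1 / 6) * hV - (1 / 6) * hP

lemma abs_inner_le {w a : P3} (ha : inner ℝ a a = 1) {ε : ℝ} (hw : ‖w‖ < ε) :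
    |inner ℝ w a| ≤ ε := by
  have h1 : ‖a‖ = 1 := by
    rw [← sq_eq_sq₀ (norm_nonneg _) zero_le_one, normsq3, ha]; norm_num
  have := abs_real_inner_le_norm w a
  rw [h1] at this
  linarith

lemma blocked {ρ : Fin 7 → ℝ} (hρ : ρ ∈ G0.configSpace) (h0 : ρ 0 = π / 2) (h2 : ρ 2 ≤ 0)
    (h5 : ρ 5 ≤ 0) : False := by
  obtain ⟨hI, σ, hσ, happ⟩ := hρ
  have s2 : sin (ρ 2) ≤ 0 := sin_nonpos_of_nonpos_of_neg_pi_le h2 (hI 2).1
  have s5 : sin (ρ 5) ≤ 0 := sin_nonpos_of_nonpos_of_neg_pi_le h5 (hI 5).1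
  obtain ⟨o, P, QA, QB, PU, PV, a1, a4, ⟨hP, hA, nA⟩, ⟨-, hB, nB⟩, ⟨hU, -, n1⟩, ⟨-, -, n2⟩,
    ⟨hV, -, n3⟩, ⟨-, -, n4⟩, ⟨c0, d0⟩, ⟨-, d2⟩, ⟨-, d5⟩⟩ := structure_of_folding hσ
  rw [h0, cos_pi_div_two] at c0
  rw [h0, sin_pi_div_two] at d0
  have pars := parseval hP hA hB nA nB c0
  -- the direction of the left spine
  have hUP : inner ℝ PU P = -23 / 49 ∧ inner ℝ PU QA = -24 / 49 ∧ inner ℝ PU QB = 36 / 49 := by
    have e1 : inner ℝ PU QA = (inner ℝ PU P - 1) / 3 := by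
      rw [inner_add_right, inner_smul_right, inner_sub_right, hU] at n1; linarith
    have e2 : inner ℝ PU QB = (1 - inner ℝ PU P) / 2 := by
      rw [inner_sub_right, inner_smul_right, inner_sub_right, hU] at n2; linarith
    have e3 := pars PU
    rw [hU, e1, e2] at e3
    have e4 : (inner ℝ PU P - 1) * (inner ℝ PU P + 23 / 49) = 0 := by linarith
    rcases mul_eq_zero.1 e4 with e5 | e5
    · exfalso
      have e6 : inner ℝ (PU - P) (PU - P) = 0 := by
        rw [inner_sub_left, inner_sub_right, inner_sub_right, hU, hP, real_inner_comm PU P]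
        linarith
      rw [inner_self_eq_zero, sub_eq_zero] at e6
      rw [e6, sub_self, smul_zero, smul_zero, sub_zero, add_zero, d0] at d2
      linarith
    · refine ⟨by linarith, by linarith, by linarith⟩
  have hVP : inner ℝ PV P = -23 / 49 ∧ inner ℝ PV QA = 36 / 49 ∧ inner ℝ PV QB = -24 / 49 := by
    have e1 : inner ℝ PV QA = (1 - inner ℝ PV P) / 2 := by
      rw [inner_sub_right, inner_smul_right, inner_sub_right, hV] at n3; linarith
    have e2 : inner ℝ PV QB = (inner ℝ PV P - 1) / 3 := by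
      rw [inner_add_right, inner_smul_right, inner_sub_right, hV] at n4; linarith
    have e3 := pars PV
    rw [hV, e1, e2] at e3
    have e4 : (inner ℝ PV P - 1) * (inner ℝ PV P + 23 / 49) = 0 := by linarith
    rcases mul_eq_zero.1 e4 with e5 | e5
    · exfalso
      have e6 : inner ℝ (PV - P) (PV - P) = 0 := by
        rw [inner_sub_left, inner_sub_right, inner_sub_right, hV, hP, real_inner_comm PV P]
        linarith
      rw [inner_self_eq_zero, sub_eq_zero] at e6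
      rw [e6, sub_self, smul_zero, smul_zero, sub_zero, add_zero, d0] at d5
      linarith
    · refine ⟨by linarith, by linarith, by linarith⟩
  obtain ⟨u1, u2, u3⟩ := hUP
  obtain ⟨v1, v2, v3⟩ := hVP
  -- the two patches
  set U : (Fin 3 → ℝ) → P2 := fun z => p2 (-72 / 19 + z 0 / 5) (12 / 19 + z 1 / 5) with hUdef
  set V : (Fin 3 → ℝ) → P2 := fun z => p2 (72 / 19 + z 2 / 5) (-12 / 19) with hVdef
  have hz : ∀ z : Fin 3 → ℝ, ‖z‖ ≤ 1 → ∀ i, -1 ≤ z i ∧ z i ≤ 1 := fun z h i =>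
    abs_le.1 ((norm_le_pi_norm z i).trans h)
  have hUF : ∀ z : Fin 3 → ℝ, ‖z‖ ≤ 1 → U z ∈ FU1 := by
    intro z h
    obtain ⟨b0, b1⟩ := hz z h 0
    obtain ⟨b2, b3⟩ := hz z h 1
    simp only [hUdef, FU1, mem_ofPred_eq, p2_0, p2_1]
    refine ⟨?_, ?_, ?_, ?_⟩ <;> linarith
  have hVF : ∀ z : Fin 3 → ℝ, ‖z‖ ≤ 1 → V z ∈ FV2 := by
    intro z h
    obtain ⟨b0, b1⟩ := hz z h 2
    simp only [hVdef, FV2, mem_ofPred_eq, p2_0, p2_1]
    refine ⟨?_, ?_, ?_, ?_⟩ <;> linarith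
  have hUR : ∀ z : Fin 3 → ℝ, ‖z‖ ≤ 1 → U z ∈ R0 := by
    intro z h
    obtain ⟨k1, k2, k3, k4⟩ := hUF z h
    exact ⟨k3, by linarith, by linarith, k2⟩
  have hVR : ∀ z : Fin 3 → ℝ, ‖z‖ ≤ 1 → V z ∈ R0 := by
    intro z h
    obtain ⟨k1, k2, k3, k4⟩ := hVF z h
    exact ⟨by linarith, k4, k1, by linarith⟩
  have hUc : Continuous U := by
    simp only [hUdef, p2]; fun_prop
  have hVc : Continuous V := by
    simp only [hVdef, p2]; fun_prop
  obtain ⟨τ, hτc, hτi, hτ⟩ := happ (1 / 200) (by norm_num)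
  set D : (Fin 3 → ℝ) → P3 := fun z => τ (U z) - τ (V z) with hD
  have hDc : ContinuousOn D (Metric.closedBall 0 1) :=
    (hτc.comp hUc.continuousOn fun z h => hUR z (mem_closedBall_zero_iff.1 h)).sub
      (hτc.comp hVc.continuousOn fun z h => hVR z (mem_closedBall_zero_iff.1 h))
  set Φ : (Fin 3 → ℝ) → (Fin 3 → ℝ) := fun z =>
    ![-118 / 19 * inner ℝ (D z) P - 71 / 19 * inner ℝ (D z) QA + 79 / 228 * inner ℝ (D z) QB,
      60 / 19 * inner ℝ (D z) P + 115 / 19 * inner ℝ (D z) QA + 115 / 19 * inner ℝ (D z) QB,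
      147 / 19 * inner ℝ (D z) P + 49 / 19 * inner ℝ (D z) QA + 1519 / 228 * inner ℝ (D z) QB]
    with hΦ
  have hΦc : ContinuousOn Φ (Metric.closedBall 0 1) := by
    refine continuousOn_pi.2 fun i => ?_
    fin_cases i <;> simp only [hΦ] <;> simp <;> fun_prop
  obtain ⟨z, hz1, hz0⟩ := Pool.Agent.Lib.helper79.exists_zero_of_near_id' hΦc (by
    intro z h
    have t1 := hτ _ (hUR z h)
    have t2 := hτ _ (hVR z h)
    rw [dist_eq_norm] at t1 t2
    have hdec : D z = (τ (U z) - σ (U z)) - (τ (V z) - σ (V z)) + (σ (U z) - σ (V z)) := by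
      simp only [hD]; abel
    have hex : ∀ w : P3, inner ℝ (σ (U z) - σ (V z)) w =
        (1 - 72 / 19 + z 0 / 5 + (12 / 19 + z 1 / 5) / 3) * inner ℝ PU w +
        (1 - 72 / 19 - z 2 / 5 + 4 / 19) * inner ℝ PV w +
        (-2 - (12 / 19 + z 1 / 5) / 3 - 4 / 19) * inner ℝ P w +
        (12 / 19 + z 1 / 5) * inner ℝ QA w + 12 / 19 * inner ℝ QB w := by
      intro w
      rw [a1 _ (hUF z h), a4 _ (hVF z h)]
      simp only [hUdef, hVdef, inner3, PiLp.add_apply, PiLp.sub_apply, PiLp.smul_apply,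
        smul_eq_mul, p2_0, p2_1]
      ring
    have x1 := hex P
    have x2 := hex QA
    have x3 := hex QB
    rw [u1, v1, hP, real_inner_comm P QA, nA, real_inner_comm P QB, nB] at x1
    rw [u2, v2, nA, hA, real_inner_comm QA QB, c0] at x2
    rw [u3, v3, nB, c0, hB] at x3
    have y1 := abs_le.1 (abs_inner_le hP t1)
    have y2 := abs_le.1 (abs_inner_le hA t1)
    have y3 := abs_le.1 (abs_inner_le hB t1)
    have y4 := abs_le.1 (abs_inner_le hP t2)
    have y5 := abs_le.1 (abs_inner_le hA t2)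
    have y6 := abs_le.1 (abs_inner_le hB t2)
    refine (pi_norm_le_iff_of_nonneg (by norm_num)).2 fun i => ?_
    rw [Real.norm_eq_abs, abs_le]
    have w1 : inner ℝ (D z) P = inner ℝ (τ (U z) - σ (U z)) P - inner ℝ (τ (V z) - σ (V z)) P +
        inner ℝ (σ (U z) - σ (V z)) P := by rw [hdec, inner_add_left, inner_sub_left]
    have w2 : inner ℝ (D z) QA = inner ℝ (τ (U z) - σ (U z)) QA - inner ℝ (τ (V z) - σ (V z)) QA +
        inner ℝ (σ (U z) - σ (V z)) QA := by rw [hdec, inner_add_left, inner_sub_left]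
    have w3 : inner ℝ (D z) QB = inner ℝ (τ (U z) - σ (U z)) QB - inner ℝ (τ (V z) - σ (V z)) QB +
        inner ℝ (σ (U z) - σ (V z)) QB := by rw [hdec, inner_add_left, inner_sub_left]
    fin_cases i <;> simp only [hΦ] <;> simp <;> constructor <;>
      linarith [y1.1, y1.2, y2.1, y2.2, y3.1, y3.2, y4.1, y4.2, y5.1, y5.2, y6.1, y6.2])
  have z0 := congrFun hz0 0
  have z1 := congrFun hz0 1
  have z2 := congrFun hz0 2
  simp only [hΦ] at z0 z1 z2
  simp at z0 z1 z2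
  have k1 : inner ℝ (D z) P = 0 := by linarith
  have k2 : inner ℝ (D z) QA = 0 := by linarith
  have k3 : inner ℝ (D z) QB = 0 := by linarith
  have k4 := pars (D z)
  rw [k1, k2, k3] at k4
  have k5 : D z = 0 := inner_self_eq_zero.1 (by rw [k4]; norm_num : inner ℝ (D z) (D z) = 0)
  have k6 := hτi (hUR z hz1) (hVR z hz1) (sub_eq_zero.1 k5)
  have k7 := congrArg (· 1) k6
  simp only [hUdef, hVdef, p2_1] at k7
  linarith [(hz z hz1 1).1]

lemma embedded_subset {m : ℕ} (G : CreasePattern m) : G.embeddedStates ⊆ G.configSpace := by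
  rintro ρ ⟨h1, σ, h2, h3⟩
  exact ⟨fun e => Ioo_subset_Icc_self (h1 e), σ, h2, fun ε hε =>
    ⟨σ, h2.1, h3, fun x _ => by simpa using hε⟩⟩

theorem not_preconnected {C : Set (Fin 7 → ℝ)} (h1 : G0.embeddedStates ⊆ C)
    (h2 : C ⊆ G0.configSpace) : ¬ IsPreconnected C := by
  intro hC
  have hpi := pi_pos
  set W : Set (Fin 7 → ℝ) := {ρ | π / 2 < ρ 0 ∧ ρ 2 < 0 ∧ ρ 5 < 0} with hW
  set W' : Set (Fin 7 → ℝ) := {ρ | ρ 0 < π / 2 ∨ 0 < ρ 2 ∨ 0 < ρ 5} with hW'
  have oW : IsOpen W :=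
    (isOpen_lt continuous_const (continuous_apply 0)).inter
      ((isOpen_lt (continuous_apply 2) continuous_const).inter
        (isOpen_lt (continuous_apply 5) continuous_const))
  have oW' : IsOpen W' :=
    (isOpen_lt (continuous_apply 0) continuous_const).union
      ((isOpen_lt continuous_const (continuous_apply 2)).union
        (isOpen_lt continuous_const (continuous_apply 5)))
  have hcov : C ⊆ W ∪ W' := by
    intro ρ hρ
    by_cases hn : ρ ∈ W'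
    · exact Or.inr hn
    left
    simp only [hW', mem_ofPred_eq, not_or, not_lt] at hn
    obtain ⟨n0, n2, n5⟩ := hn
    obtain ⟨hI, σ, hσ, -⟩ := h2 hρ
    obtain ⟨c2, c5⟩ := cos_eq hσ
    have hc : cos (ρ 0) ≤ 0 := cos_nonpos_of_pi_div_two_le_of_le n0 (by linarith [(hI 0).2])
    refine ⟨lt_of_le_of_ne n0 fun h => blocked (h2 hρ) h.symm n2 n5, lt_of_le_of_ne n2 fun h => ?_,
      lt_of_le_of_ne n5 fun h => ?_⟩
    · rw [h, cos_zero] at c2; linarith
    · rw [h, cos_zero] at c5; linarith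
  obtain ⟨ρ, hρ, hρW⟩ := locked_state
  obtain ⟨x, -, hx1, hx2⟩ := hC W W' oW oW' hcov ⟨ρ, h1 hρ, hρW⟩
    ⟨_, h1 (line_state le_rfl zero_le_one), Or.inl (by simp; positivity)⟩
  obtain ⟨a, b, c⟩ := hx1
  rcases hx2 with h | h | h <;> linarith

end Pool.Agent.MP_aa2243_gt

end MrgPart4

-- marker of a merged file
example : 731051 + 752615 = 731051 + 752615 := rfl
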